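import Pool.Agent.SBN.Defs
import Pool.Agent.SNU.Upx

/-!
# SBN: statements (architect helper22, with helper97, helper92)

`LB`, `LBs`, `Yb`, `Win2`: helper22.  `Del`: helper92.  `ND2`: helper97 (folder SZD), from `Del`, `LB`.
`U t = 2 * ((t + 1) ^ 2 / 4)` (SBN/Defs.lean); `pn` is SNW.pn; M1P for all noncyclic groups is `Pool.Agent.SNT.all_M1Pr`.
-/

set_option autoImplicit false

noncomputable section

open Finset Pool.Agent.Helper64.Rho Pool.Agent.SDG Pool.Agent.SNW Pool.Agent.SNR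
open scoped Classical Pointwise

namespace Pool.Agent.SBN

/-- **LB**.  A noncyclic group, an aperiodic set of sums with less than two thirds of the elements. -/
def St_LB : Prop :=
  ∀ (G ι : Type) [AddCommGroup G] [Finite G] (u : Finset ι) (f : ι → G), ¬ IsAddCyclic G → (∀ i ∈ u, f i ≠ 0) → Cap 2 u f →
    Aper (FS u f) → gen u f = ⊤ → 3 * (FS u f).card + 1 ≤ 2 * Nat.card G → U (u.card + 2) ≤ 3 * (FS u f).card

/-- **LBs**.  The same for a subgroup `C` generated by the family. -/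
def St_LBs : Prop :=
  ∀ (G ι : Type) [AddCommGroup G] [Finite G] (u : Finset ι) (f : ι → G) (C : AddSubgroup G), ¬ IsAddCyclic C →
    (∀ i ∈ u, f i ≠ 0) → Cap 2 u f → Aper (FS u f) → gen u f = C → 3 * (FS u f).card + 1 ≤ 2 * Nat.card C →
      U (u.card + 2) ≤ 3 * (FS u f).card

/-- **Yb**.  Less than half of the elements of a noncyclic subgroup: no near-full alternative. -/
def St_Yb : Prop :=
  ∀ (G ι : Type) [AddCommGroup G] [Finite G] (u : Finset ι) (f : ι → G) (C : AddSubgroup G), ¬ IsAddCyclic C →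
    (∀ i ∈ u, f i ≠ 0) → Cap 2 u f → Aper (FS u f) → gen u f = C → 2 * (FS u f).card ≤ Nat.card C →
      min (pn u.card) (cf 2 u.card + l0 C - 1) ≤ (FS u f).card ∧ min (pn u.card) (cf 2 u.card + 1) ≤ (FS u f).card

/-- **Del** (helper92).  Deletion of one member. -/
def St_Del : Prop :=
  ∀ (G ι : Type) [AddCommGroup G] [Finite G] (s : Finset ι) (f : ι → G), 3 ≤ crk (⊥ : AddSubgroup G) → (∀ i ∈ s, f i ≠ 0) →
    Cap 2 s f → Aper (FS s f) → gen s f = ⊤ → (∀ i ∈ s, gen (s.erase i) f = ⊤) → GR 2 (⊥ : AddSubgroup G) (FS s f).card →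
      (FS s f).card + 1 ≤ U s.card →
        (∀ z ∈ s, (∀ i ∈ s.erase z, gen ((s.erase z).erase i) f = ⊤) → U (s.card - 1) ≤ (FS (s.erase z) f).card) →
          ∀ z ∈ s, U (s.card - 1) ≤ (FS (s.erase z) f).card

/-- **ND2** (helper97). -/
def St_ND2 : Prop :=
  ∀ (G ι : Type) [AddCommGroup G] [Finite G] (s : Finset ι) (f : ι → G), 3 ≤ crk (⊥ : AddSubgroup G) → (∀ i ∈ s, f i ≠ 0) →
    Cap 2 s f → Aper (FS s f) → gen s f = ⊤ → (∀ i ∈ s, gen (s.erase i) f = ⊤) → GR 2 (⊥ : AddSubgroup G) (FS s f).card →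
      U s.card ≤ (FS s f).card

/-- **Win2** (helper22, from ND2).  Level exactly 2, rank at least 3: `SNV.St_WinR` for `m = 2`. -/
def St_Win2 : Prop :=
  ∀ (G ι : Type) [AddCommGroup G] [Finite G] (s : Finset ι) (f : ι → G) (H : AddSubgroup G),
    (∀ i ∈ s, f i ≠ 0) → Cap 2 s f → Aper (FS s f) → gen s f = ⊤ → (∀ i ∈ s, gen (s.erase i) f = ⊤) →
      GR 2 (⊥ : AddSubgroup G) (FS s f).card → 2 < crk (⊥ : AddSubgroup G) → crk H = 2 →
        Nat.card H * 2 ^ 2 ≤ (FS s f).card → Pool.Agent.SNU.upx G s.card ≤ (FS s f).card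

end Pool.Agent.SBN
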