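import Pool.Agent.SBN.LB

/-!
# SBN, module Win2 (helper22): level exactly two, rank at least three, no drop
-/

set_option autoImplicit false

noncomputable section

open Finset Pool.Agent.Helper64.Rho Pool.Agent.SDG Pool.Agent.SNW Pool.Agent.SNR
open scoped Classical Pointwise

namespace Pool.Agent.SBN

/-- `4 h cf (2 h) n ≤ (h + n + 1)^2` -/
theorem Win_num (h n : ℕ) (hh : 1 ≤ h) : 4 * (h * cf (2 * h) n) ≤ (h + n + 1) ^ 2 := by
  have hr : n % (2 * h) ≤ 2 * h := (Nat.mod_lt _ (by omega)).le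
  have hu : 2 * h * (n / (2 * h)) + n % (2 * h) = n := Nat.div_add_mod n _
  have h1 := thm_Nm1.2.1 (2 * h) (n / (2 * h)) (n % (2 * h)) (by omega) hr
  rw [hu] at h1
  generalize n / (2 * h) = b at h1 hu
  generalize n % (2 * h) = r at h1 hu hr
  have h2 : (2 : ℤ) * cf (2 * h) n = 2 + 2 * h * b * (b + 1) + 2 * r * (b + 1) := by
    exact_mod_cast h1
  have h3 : (2 : ℤ) * h * b + r = n := by exact_mod_cast hu
  have h4 : (4 : ℤ) * (h * cf (2 * h) n) ≤ (h + n + 1) ^ 2 := by
    have h5 : (4 : ℤ) * (h * cf (2 * h) n) = 2 * h * (2 * cf (2 * h) n) := by ring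
    rw [h5, h2, ← h3]
    have h6 : ((h : ℤ) + (2 * h * b + r) + 1) ^ 2 - 2 * h * (2 + 2 * h * b * (b + 1) + 2 * r * (b + 1)) =
        ((h : ℤ) - (r + 1)) ^ 2 + 4 * b * h := by ring
    have h7 : (0 : ℤ) ≤ ((h : ℤ) - (r + 1)) ^ 2 := sq_nonneg _
    have h8 : (0 : ℤ) ≤ 4 * b * h := by positivity
    linarith
  exact_mod_cast h4

/-- the value of a subgroup `H` with `crk H = 2` -/
theorem Win_valr {G : Type} [AddCommGroup G] [Finite G] (H : AddSubgroup G) (t X : ℕ) (hH : crk H = 2)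
    (hX : Nat.card H * 2 ^ 2 ≤ X) (hU : U t ≤ X) : valr t H ≤ X := by
  have hpos : 0 < Nat.card H := Nat.card_pos
  unfold valr
  rw [hH]
  rcases Nat.lt_or_ge (Nat.card H + 1) t with h1 | h1
  · have e1 : max 1 (t + 2 - Nat.card H - 2) = t - Nat.card H := by
      rw [max_eq_right (by omega)]
      omega
    rw [e1]
    have h2 := Win_num (Nat.card H) (t - Nat.card H) hpos
    have e2 : Nat.card H + (t - Nat.card H) + 1 = t + 1 := by omega
    rw [e2] at h2
    have h3 : Nat.card H * cf (2 * Nat.card H) (t - Nat.card H) ≤ (t + 1) ^ 2 / 4 := by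
      rw [Nat.le_div_iff_mul_le (by norm_num), mul_comm]
      exact h2
    refine le_trans ?_ hU
    unfold U
    calc Nat.card H * 2 ^ (2 - 1) * cf (2 * Nat.card H) (t - Nat.card H)
        = 2 * (Nat.card H * cf (2 * Nat.card H) (t - Nat.card H)) := by ring
      _ ≤ _ := Nat.mul_le_mul_left _ h3
  · have e1 : max 1 (t + 2 - Nat.card H - 2) = 1 := max_eq_left (by omega)
    rw [e1, W2_lin (2 * Nat.card H) 1 (by omega) (by omega)]
    refine le_trans (le_of_eq ?_) hX
    ring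

theorem thm_Win2 (hN : St_ND2) : St_Win2 := by
  intro G ι _ _ s f H h0 hc hA hg hge hG h2 hH hX
  have hU := hN G ι s f (by omega) h0 hc hA hg hge hG
  have hne : H ≠ ⊤ := by
    intro h
    rw [h, crk_top] at hH
    omega
  exact le_trans (Nat.sInf_le (Or.inl (Or.inr ⟨H, hne, rfl⟩))) (Win_valr H s.card _ hH hX hU)

end Pool.Agent.SBN
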