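import Pool.Agent.SNT.All
import Pool.Agent.SNR.Su

/-!
# SBN: cap 2, rank at least three, level exactly two, no member outside the group of the others (MP_ec93d3_co)

Architect helper22 (with helper97, helper48, helper64, helper92).
-/

set_option autoImplicit false

noncomputable section

open Finset Pool.Agent.Helper64.Rho Pool.Agent.SDG
open scoped Classical Pointwise

namespace Pool.Agent.SBN

/-- the lower bound: twice the integral part of `(t+1)^2 / 4` -/
def U (t : ℕ) : ℕ := 2 * ((t + 1) ^ 2 / 4)

end Pool.Agent.SBN
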