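import Pool.Agent.SBN.St
import Pool.Agent.SNT.All2
import Pool.Agent.SNR.Lm
import Pool.Agent.SNU.Ub
import Pool.Agent.Helper64.Rho.Dual

/-!
# SBN, module Del (helper92): the deletion bound for families without drops, cap 2, level two (MP_ec93d3_co)
-/

set_option autoImplicit false

noncomputable section

open Finset Pool.Agent.Helper64.Rho Pool.Agent.SDG
open scoped Classical Pointwise

namespace Pool.Agent.SBN

open Pool.Agent.SNR Pool.Agent.SNW

/-! ### numbers -/

theorem Del_cf2 (n : ℕ) : cf 2 n = 1 + (n + 1) ^ 2 / 4 := by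
  induction n with
  | zero => simp [cf]
  | succ n ih =>
    have h1 := thm_Nm1.1 2 n
    rw [h1, ih]
    rcases Nat.even_or_odd' n with ⟨c, rfl | rfl⟩
    · have e1 : (2 * c + 1) ^ 2 = 4 * (c * c + c) + 1 := by ring
      have e2 : (2 * c + 1 + 1) ^ 2 = 4 * (c * c + 2 * c + 1) := by ring
      rw [e1, e2]
      omega
    · have e1 : (2 * c + 1 + 1) ^ 2 = 4 * (c * c + 2 * c + 1) := by ring
      have e2 : (2 * c + 1 + 1 + 1) ^ 2 = 4 * (c * c + 3 * c + 2) + 1 := by ring
      rw [e1, e2]
      omega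

/-- `2 pn n ≥ U (n + 1)` -/
theorem Del_pn (n : ℕ) (hn : 2 ≤ n) : U (n + 1) ≤ 2 * pn n := by
  unfold U pn
  split_ifs with h1 h2
  · subst h1
    decide
  · subst h2
    decide
  · rw [Del_cf2]
    rcases Nat.even_or_odd' n with ⟨c, rfl | rfl⟩
    · obtain ⟨d, rfl⟩ : ∃ d, c = d + 1 := ⟨c - 1, by omega⟩
      have e1 : (2 * (d + 1) + 1 + 1) ^ 2 = 4 * (d * d + 4 * d + 4) := by ring
      have e3 : 2 * (d + 1) - 1 + 1 = 2 * (d + 1) := by omega
      have e2 : (2 * (d + 1)) ^ 2 = 4 * (d * d + 2 * d + 1) := by ring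
      rw [e1, e3, e2]
      have h3 : d = 0 ∨ d = 1 ∨ 2 ≤ d := by omega
      rcases h3 with rfl | rfl | h3
      · norm_num
      · omega
      · have h4 : 2 * d ≤ d * d := Nat.mul_le_mul_right d h3
        omega
    · obtain ⟨d, rfl⟩ : ∃ d, c = d + 1 := ⟨c - 1, by omega⟩
      have e1 : (2 * (d + 1) + 1 + 1 + 1) ^ 2 = 4 * (d * d + 5 * d + 6) + 1 := by ring
      have e3 : 2 * (d + 1) + 1 - 1 + 1 = 2 * (d + 1) + 1 := by omega
      have e2 : (2 * (d + 1) + 1) ^ 2 = 4 * (d * d + 3 * d + 2) + 1 := by ring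
      rw [e1, e3, e2]
      have h4 : d ≤ d * d := by
        rcases Nat.eq_zero_or_pos d with rfl | h5
        · exact le_rfl
        · exact Nat.le_mul_of_pos_left d h5
      omega

/-- `U (n + 1) ≤ 4 cf 2 n - 2` -/
theorem Del_cf (n : ℕ) : U (n + 1) + 2 ≤ 4 * cf 2 n := by
  unfold U
  rw [Del_cf2]
  rcases Nat.even_or_odd' n with ⟨c, rfl | rfl⟩
  · have e1 : (2 * c + 1 + 1) ^ 2 = 4 * (c * c + 2 * c + 1) := by ring
    have e2 : (2 * c + 1) ^ 2 = 4 * (c * c + c) + 1 := by ring
    rw [e1, e2]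
    have h1 : (4 * (c * c + c) + 1) / 4 = c * c + c := by omega
    have h2 : 4 * (c * c + 2 * c + 1) / 4 = c * c + 2 * c + 1 := by omega
    rw [h1, h2]
    nlinarith
  · have e1 : (2 * c + 1 + 1 + 1) ^ 2 = 4 * (c * c + 3 * c + 2) + 1 := by ring
    have e2 : (2 * c + 1 + 1) ^ 2 = 4 * (c * c + 2 * c + 1) := by ring
    rw [e1, e2]
    have h1 : (4 * (c * c + 3 * c + 2) + 1) / 4 = c * c + 3 * c + 2 := by omega
    have h2 : 4 * (c * c + 2 * c + 1) / 4 = c * c + 2 * c + 1 := by omega
    rw [h1, h2]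
    nlinarith

/-- `jj n (jj n - 1) < cf 2 n` -/
theorem Del_jj (n : ℕ) : jj n * (jj n - 1) + 1 ≤ cf 2 n := by
  unfold jj
  rw [Del_cf2]
  rcases Nat.even_or_odd' n with ⟨c, rfl | rfl⟩
  · have e1 : (2 * c + 1) ^ 2 = 4 * (c * c + c) + 1 := by ring
    have e2 : (2 * c + 1) / 2 = c := by omega
    rw [e1, e2]
    have h1 : (4 * (c * c + c) + 1) / 4 = c * c + c := by omega
    rw [h1]
    have h2 : c * (c - 1) ≤ c * c := Nat.mul_le_mul_left c (by omega)
    omega
  · have e1 : (2 * c + 1 + 1) ^ 2 = 4 * (c * c + 2 * c + 1) := by ring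
    have e2 : (2 * c + 1 + 1) / 2 = c + 1 := by omega
    rw [e1, e2, Nat.add_sub_cancel]
    have h1 : 4 * (c * c + 2 * c + 1) / 4 = c * c + 2 * c + 1 := by omega
    rw [h1]
    nlinarith

/-! ### translates -/

section
variable {G ι : Type} [AddCommGroup G] [Finite G]

omit [Finite G] in
theorem Del_three (L : AddSubgroup G) (A T : Finset G) (hA : ∀ x ∈ A, x ∈ L) (c d : G)
    (hc : c ∉ L) (hd : d ∉ L) (hcd : c - d ∉ L) (h0 : ∀ x ∈ A, x ∈ T) (h1 : ∀ x ∈ A, x + c ∈ T)
    (h2 : ∀ x ∈ A, x + d ∈ T) : 3 * A.card ≤ T.card := by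
  have k1 : Disjoint A (A.image fun x => x + c) := by
    rw [disjoint_left]
    intro x hx hx'
    obtain ⟨y, hy, rfl⟩ := mem_image.1 hx'
    apply hc
    have e : c = (y + c) - y := by abel
    rw [e]
    exact L.sub_mem (hA _ hx) (hA _ hy)
  have k2 : Disjoint (A ∪ A.image fun x => x + c) (A.image fun x => x + d) := by
    rw [disjoint_left]
    intro x hx hx'
    obtain ⟨y, hy, rfl⟩ := mem_image.1 hx'
    rcases mem_union.1 hx with h3 | h3
    · apply hd
      have e : d = (y + d) - y := by abel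
      rw [e]
      exact L.sub_mem (hA _ h3) (hA _ hy)
    · obtain ⟨z, hz, hzy⟩ := mem_image.1 h3
      apply hcd
      have e : c - d = y - z + ((z + c) - (y + d)) := by abel
      rw [e, hzy, sub_self, add_zero]
      exact L.sub_mem (hA _ hy) (hA _ hz)
  have k3 : (A ∪ A.image fun x => x + c) ∪ (A.image fun x => x + d) ⊆ T := by
    intro x hx
    rcases mem_union.1 hx with h3 | h3
    · rcases mem_union.1 h3 with h4 | h4
      · exact h0 x h4
      · obtain ⟨y, hy, rfl⟩ := mem_image.1 h4
        exact h1 y hy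
    · obtain ⟨y, hy, rfl⟩ := mem_image.1 h3
      exact h2 y hy
  have k4 := card_le_card k3
  rw [card_union_of_disjoint k2, card_union_of_disjoint k1,
    card_image_of_injective _ (add_left_injective c), card_image_of_injective _ (add_left_injective d)] at k4
  omega

/-- a subgroup with cyclic quotient of order `exp G` -/
theorem Del_ex : ∃ N : AddSubgroup G, crk N ≤ 1 ∧ Nat.card N * AddMonoid.exponent G = Nat.card G := by
  obtain ⟨x, hx⟩ := AddMonoid.exists_addOrderOf_eq_exponent (G := G) AddMonoid.ExponentExists.of_finite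
  obtain ⟨N, hN, u, hu⟩ := exists_cyclic_quotient_add x
  refine ⟨N, ?_, ?_⟩
  · have h1 := crk_sup_le N u
    rw [hu, crk_top] at h1
    omega
  · rw [← hx, ← hN]
    exact AddSubgroup.card_mul_index N

theorem Del_GR (n : ℕ) (hG : GR 2 (⊥ : AddSubgroup G) n) : n * AddMonoid.exponent G < 2 * Nat.card G := by
  obtain ⟨N, hN, hc⟩ := Del_ex (G := G)
  have h1 := hG N bot_le (by omega)
  have h2 : 2 ^ crk N ≤ 2 := by
    calc 2 ^ crk N ≤ 2 ^ 1 := Nat.pow_le_pow_right (by norm_num) hN
      _ = 2 := rfl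
  have h3 : n < Nat.card N * 2 := lt_of_lt_of_le h1 (Nat.mul_le_mul_left _ h2)
  have h4 : 0 < AddMonoid.exponent G := exp_pos G
  calc n * AddMonoid.exponent G < Nat.card N * 2 * AddMonoid.exponent G := Nat.mul_lt_mul_of_pos_right h3 h4
    _ = 2 * (Nat.card N * AddMonoid.exponent G) := by ring
    _ = 2 * Nat.card G := by rw [hc]

end

/-- **Del**: the deletion bound. -/
theorem thm_Del (hLB : St_LB) : St_Del := by
  intro G ι _ _ s f hr h0 hcap hA _ hge hG hX ih z hz
  by_cases hd : ∀ i ∈ s.erase z, gen ((s.erase z).erase i) f = ⊤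
  · exact ih z hz hd
  push Not at hd
  obtain ⟨w, hw, hwL⟩ := hd
  obtain ⟨hwz, hws⟩ := mem_erase.1 hw
  obtain ⟨u, hu⟩ : ∃ u, u = (s.erase z).erase w := ⟨_, rfl⟩
  rw [← hu] at hwL
  have hu' : u = (s.erase w).erase z := by rw [hu, erase_right_comm]
  have hzw : z ∈ s.erase w := mem_erase.2 ⟨hwz.symm, hz⟩
  have hus : u ⊆ s := fun i hi => by
    rw [hu] at hi
    exact mem_of_mem_erase (mem_of_mem_erase hi)
  have huc : u.card + 2 = s.card := by
    rw [hu, card_erase_of_mem hw, card_erase_of_mem hz]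
    have h1 : 0 < (s.erase z).card := card_pos.2 ⟨w, hw⟩
    rw [card_erase_of_mem hz] at h1
    omega
  have hwn : f w ∉ gen u f := by
    intro h1
    apply hwL
    have h2 := (all_Ba1 G ι f).2.2.2.2.2.1 (s.erase z) w hw (by rw [← hu]; exact h1)
    rw [← hu, hge z hz] at h2
    exact h2
  have hzn : f z ∉ gen u f := by
    intro h1
    apply hwL
    have h2 := (all_Ba1 G ι f).2.2.2.2.2.1 (s.erase w) z hzw (by rw [← hu']; exact h1)
    rw [← hu', hge w hws] at h2
    exact h2
  have hTz : (FS (s.erase z) f).card = 2 * (FS u f).card := by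
    rw [hu]
    exact (all_Ba1 G ι f).2.2.2.1 (s.erase z) w hw (by rw [← hu]; exact hwn)
  -- the group of the other members
  have hLw : gen u f ⊔ AddSubgroup.zmultiples (f w) = ⊤ := by
    rw [eq_top_iff, ← hge z hz]
    conv_lhs => unfold gen
    rw [AddSubgroup.closure_le]
    rintro _ ⟨k, hk, rfl⟩
    by_cases hkw : k = w
    · subst hkw
      exact AddSubgroup.mem_sup_right (AddSubgroup.mem_zmultiples _)
    · refine AddSubgroup.mem_sup_left (P1_mem_gen ?_)
      rw [hu]
      exact mem_erase.2 ⟨hkw, mem_coe.1 hk⟩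
  have hLT : gen u f ≠ ⊤ := fun h => hwn (h ▸ AddSubgroup.mem_top _)
  have hcrk : crk (gen u f) ≤ 1 := by
    have h1 := crk_sup_le (gen u f) (f w)
    rw [hLw, crk_top] at h1
    omega
  have hGL : (FS s f).card < 2 * Nat.card (gen u f) := by
    have h1 := hG (gen u f) bot_le (by omega)
    have h2 : 2 ^ crk (gen u f) ≤ 2 := by
      calc 2 ^ crk (gen u f) ≤ 2 ^ 1 := Nat.pow_le_pow_right (by norm_num) hcrk
        _ = 2 := rfl
    calc (FS s f).card < Nat.card (gen u f) * 2 ^ crk (gen u f) := h1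
      _ ≤ Nat.card (gen u f) * 2 := Nat.mul_le_mul_left _ h2
      _ = 2 * Nat.card (gen u f) := Nat.mul_comm _ _
  have hAu : Aper (FS u f) := (all_Ba1 G ι f).2.1 s u hus hA
  -- sums
  have hz' : z ∉ insert w u := by
    rw [mem_insert, not_or, hu]
    refine ⟨hwz.symm, fun h1 => ?_⟩
    exact (mem_erase.1 (mem_of_mem_erase h1)).1 rfl
  have hw' : w ∉ u := by
    rw [hu]
    exact fun h1 => (mem_erase.1 h1).1 rfl
  have hz'' : z ∉ u := fun h1 => hz' (mem_insert_of_mem h1)
  have m0 : ∀ x ∈ FS u f, x ∈ FS s f := fun x hx => FS_mono hus f hx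
  have m1 : ∀ x ∈ FS u f, x + f w ∈ FS s f := by
    intro x hx
    obtain ⟨B, hB, rfl⟩ := mem_FS.1 hx
    refine mem_FS.2 ⟨insert w B, ?_, ?_⟩
    · intro k hk
      rcases mem_insert.1 hk with rfl | hk
      · exact hws
      · exact hus (hB hk)
    · rw [sum_insert (fun h1 => hw' (hB h1)), add_comm]
  have m2 : ∀ x ∈ FS u f, x + f z ∈ FS s f := by
    intro x hx
    obtain ⟨B, hB, rfl⟩ := mem_FS.1 hx
    refine mem_FS.2 ⟨insert z B, ?_, ?_⟩
    · intro k hk
      rcases mem_insert.1 hk with rfl | hk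
      · exact hz
      · exact hus (hB hk)
    · rw [sum_insert (fun h1 => hz'' (hB h1)), add_comm]
  have m3 : ∀ x ∈ FS u f, x + (f w + f z) ∈ FS s f := by
    intro x hx
    obtain ⟨B, hB, rfl⟩ := mem_FS.1 hx
    refine mem_FS.2 ⟨insert z (insert w B), ?_, ?_⟩
    · intro k hk
      rcases mem_insert.1 hk with rfl | hk
      · exact hz
      · rcases mem_insert.1 hk with rfl | hk
        · exact hws
        · exact hus (hB hk)
    · rw [sum_insert (fun h1 => hz' (by
        rcases mem_insert.1 h1 with rfl | h2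
        · exact mem_insert_self _ _
        · exact mem_insert_of_mem (hB h2))), sum_insert (fun h1 => hw' (hB h1))]
      abel
  have hsub : ∀ x ∈ FS u f, x ∈ gen u f := (all_Ba1 G ι f).2.2.2.2.2.2 u
  -- a copy of the group
  obtain ⟨H, _, _, φ, f1, hφ, hrg, hf1, hcard, hg1⟩ := res u f _ rfl
  have hHc : Nat.card H = Nat.card (gen u f) := by
    rw [← hrg]
    exact Nat.card_congr (Equiv.ofInjective φ hφ)
  have h01 := ne_res φ u f f1 hf1 (fun k hk => h0 k (hus hk))
  have hA1 := aper_res φ hφ u f f1 hf1 hAu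
  have hcap1 : Cap 2 u f1 := by
    intro x
    refine (card_le_card ?_).trans (hcap (φ x))
    intro k hk
    obtain ⟨hk1, hk2⟩ := mem_filter.1 hk
    refine mem_filter.2 ⟨hus hk1, ?_⟩
    rw [← hf1 k hk1, ← map_neg]
    rcases hk2 with hk2 | hk2
    · left
      rw [hk2]
    · right
      rw [hk2]
  have hrH : crk (⊥ : AddSubgroup G) ≤ crk (⊥ : AddSubgroup H) + 1 := by
    have h3 := crk_sub φ (f w) (by rw [hrg]; exact hLw) ⊥
    rwa [AddSubgroup.map_bot] at h3
  have hnc : ¬ IsAddCyclic H := by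
    intro h
    have h1 := crk_cyc h
    omega
  by_cases h2w : f w + f w ∈ gen u f
  · -- index two
    have hu2 : 2 ≤ u.card := by
      have h1 := crk_bot_le u f1 hg1
      omega
    have hGc : Nat.card G ≤ 2 * Nat.card H := by
      have h1 := SNU.card_two (gen u f) {f w} (by
        rw [coe_singleton, ← AddSubgroup.zmultiples_eq_closure]
        exact hLw) (by
        intro x hx
        rw [mem_singleton] at hx
        rw [hx]
        exact h2w)
      rw [card_singleton, pow_one, ← hHc] at h1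
      omega
    have hlow := SNT.all_PAG H ι u f1 h01 hcap1 hA1
    rw [hcard] at hlow
    have hE := Del_GR _ hG
    -- the exponent
    obtain ⟨E, hEq⟩ : ∃ E, E = AddMonoid.exponent G := ⟨_, rfl⟩
    rw [← hEq] at hE
    have hE4 : 4 ≤ E := by
      have hdvd : 2 ∣ E := by
        -- the order of `f w` modulo the group of the others is two
        have h3 : addOrderOf (f w) ∣ E := hEq ▸ AddMonoid.addOrder_dvd_exponent _
        refine dvd_trans ?_ h3
        by_contra h4
        have h5 : Odd (addOrderOf (f w)) := by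
          rcases Nat.even_or_odd (addOrderOf (f w)) with h6 | h6
          · exact absurd h6.two_dvd h4
          · exact h6
        obtain ⟨c, hc⟩ := h5
        apply hwn
        have h6 : addOrderOf (f w) • f w = 0 := addOrderOf_nsmul_eq_zero _
        rw [hc, add_nsmul, one_nsmul, mul_comm, mul_nsmul, two_nsmul] at h6
        have h8 : c • (f w + f w) ∈ gen u f := AddSubgroup.nsmul_mem _ h2w c
        have h9 : f w = -(c • (f w + f w)) := by
          rw [nsmul_add]
          have h10 : c • f w + c • f w + f w = 0 := h6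
          exact (neg_eq_of_add_eq_zero_right h10).symm
        rw [h9]
        exact AddSubgroup.neg_mem _ h8
      have hE2 : E ≠ 2 := by
        intro h3
        have h4 : f z + f z = 0 := by
          have h5 : AddMonoid.exponent G • f z = 0 := AddMonoid.exponent_nsmul_eq_zero _
          rw [← hEq, h3, two_nsmul] at h5
          exact h5
        exact (all_Ba1 G ι f).2.2.2.2.1 s z hz hA (h0 z hz) (eq_neg_of_add_eq_zero_left h4)
      have hE0 : E ≠ 0 := hEq ▸ (exp_pos G).ne'
      obtain ⟨c, rfl⟩ := hdvd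
      omega
    -- the exponent of the copy
    have hEH : AddMonoid.exponent H ≤ E := by
      rw [hEq]
      refine Nat.le_of_dvd (exp_pos G) (AddMonoid.exponent_dvd_of_forall_nsmul_eq_zero fun x => ?_)
      apply hφ
      rw [map_nsmul, map_zero]
      exact AddMonoid.exponent_nsmul_eq_zero _
    have hEHd : AddMonoid.exponent H ∣ Nat.card H := AddGroup.exponent_dvd_nat_card
    obtain ⟨l, hl⟩ := hEHd
    have hEH0 : 0 < AddMonoid.exponent H := exp_pos H
    have hl0 : l0 H = l := by
      unfold l0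
      rw [hl]
      exact Nat.mul_div_cancel_left l hEH0
    obtain ⟨a, ha⟩ : ∃ a, a = (FS u f).card := ⟨_, rfl⟩
    rw [← ha] at hlow hTz
    have hTle : 2 * a ≤ (FS s f).card := by
      rw [← hTz]
      exact card_le_card (FS_mono (erase_subset _ _) f)
    obtain ⟨X, hXq⟩ : ∃ X, X = (FS s f).card := ⟨_, rfl⟩
    rw [← hXq] at hE hTle hX
    -- `X E < 4 |H|`, `|H| ≤ E l`, so `X < 4 l`
    have hX4 : X < 4 * l := by
      have h3 : X * E < 4 * (E * l) := by
        calc X * E < 2 * Nat.card G := hE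
          _ ≤ 4 * Nat.card H := by omega
          _ = 4 * (AddMonoid.exponent H * l) := by rw [hl]
          _ ≤ 4 * (E * l) := Nat.mul_le_mul_left _ (Nat.mul_le_mul_right _ hEH)
      by_contra h4
      push Not at h4
      have h5 : 4 * l * E ≤ X * E := Nat.mul_le_mul_right _ h4
      have h6 : 4 * l * E = 4 * (E * l) := by ring
      omega
    have hXH : X < Nat.card H := by
      by_contra h4
      push Not at h4
      have h5 : Nat.card H * 4 ≤ X * E := Nat.mul_le_mul h4 hE4
      omega
    rw [hTz]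
    have e1 : s.card - 1 = u.card + 1 := by omega
    rw [e1]
    have hM := SNT.all_M1Pr H hnc ι u f1 h01 hcap1 hA1 hg1
    rw [hcard, ← ha, hl0] at hM
    rcases hM with h3 | h3
    · rcases min_le_iff.1 h3 with h4 | h4
      · have h5 := Del_pn u.card hu2
        omega
      · have h5 := Del_cf u.card
        omega
    · exfalso
      have h4 := Del_jj u.card
      omega
  · -- index at least three
    exfalso
    have h3 : 3 * (FS u f).card ≤ (FS s f).card := by
      by_cases h4 : f w - f z ∈ gen u f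
      · refine Del_three (gen u f) _ _ hsub (f w) (f w + f z) hwn ?_ ?_ m0 m1 m3
        · intro h5
          apply h2w
          have h6 : f w + f w = (f w + f z) + (f w - f z) := by abel
          rw [h6]
          exact AddSubgroup.add_mem _ h5 h4
        · intro h5
          apply hzn
          have h6 : f z = -(f w - (f w + f z)) := by abel
          rw [h6]
          exact AddSubgroup.neg_mem _ h5
      · exact Del_three (gen u f) _ _ hsub (f w) (f z) hwn hzn h4 m0 m1 m2
    have h4 := hLB H ι u f1 hnc h01 hcap1 hA1 hg1 (by rw [hcard, hHc]; omega)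
    rw [hcard, huc] at h4
    omega

end Pool.Agent.SBN
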