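import Pool.Agent.SBN.St
import Pool.Agent.SSE.SyE
import Pool.Agent.MDR.Av0
import Pool.Agent.SNR.Lm
import Pool.Agent.SNT.A1
import Pool.Agent.Helper58.Kneser

/-!
# SBN, module LB (helper22): sums in a noncyclic group with less than two thirds of the elements
-/

set_option autoImplicit false

noncomputable section

open Finset Pool.Agent.Helper64.Rho Pool.Agent.SDG Pool.Agent.SNW Pool.Agent.SNR Pool.Agent.MDR Pool.Agent.SSE
open scoped Classical Pointwise

namespace Pool.Agent.SBN

/-! ### numbers -/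

theorem U_even (b : ℕ) : U (2 * b) = 2 * (b * (b + 1)) := by
  unfold U
  have h : (2 * b + 1) ^ 2 = 4 * (b * (b + 1)) + 1 := by ring
  rw [h]
  omega

theorem U_odd (b : ℕ) : U (2 * b + 1) = 2 * ((b + 1) * (b + 1)) := by
  unfold U
  have h : (2 * b + 1 + 1) ^ 2 = 4 * ((b + 1) * (b + 1)) := by ring
  rw [h]
  omega

theorem cf_even (b : ℕ) : cf 2 (2 * b) = 1 + b * (b + 1) := by
  rw [thm_Nm1.2.2.1]
  have h : (2 * b + 1) ^ 2 = 4 * (b * (b + 1)) + 1 := by ring
  rw [h]
  omega

theorem cf_odd (b : ℕ) : cf 2 (2 * b + 1) = 1 + (b + 1) * (b + 1) := by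
  rw [thm_Nm1.2.2.1]
  have h : (2 * b + 1 + 1) ^ 2 = 4 * ((b + 1) * (b + 1)) := by ring
  rw [h]
  omega

/-- `U t = 2 cf 2 t - 2` -/
theorem U_cf (t : ℕ) : U t + 2 = 2 * cf 2 t := by
  rcases Nat.even_or_odd' t with ⟨b, rfl | rfl⟩
  · rw [U_even, cf_even]
    ring
  · rw [U_odd, cf_odd]
    ring

theorem LB_num1 (n : ℕ) (hn : 2 ≤ n) : U (n + 2) ≤ 3 * pn n := by
  unfold pn
  split_ifs with h1 h2
  · subst h1
    decide
  · subst h2
    decide
  · rcases Nat.even_or_odd' n with ⟨b, rfl | rfl⟩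
    · obtain ⟨c, rfl⟩ : ∃ c, b = c + 1 := ⟨b - 1, by omega⟩
      have e1 : 2 * (c + 1) + 2 = 2 * (c + 2) := by ring
      have e2 : 2 * (c + 1) - 1 = 2 * c + 1 := by omega
      rw [e1, e2, U_even, cf_odd]
      nlinarith
    · have e1 : 2 * b + 1 + 2 = 2 * (b + 1) + 1 := by ring
      have e2 : 2 * b + 1 - 1 = 2 * b := by omega
      rw [e1, e2, U_odd, cf_even]
      have h3 : 1 ≤ b := by omega
      nlinarith

theorem LB_num2 (n : ℕ) (hn : 2 ≤ n) : U (n + 2) ≤ 3 * (cf 2 n + 1) := by
  rcases Nat.even_or_odd' n with ⟨b, rfl | rfl⟩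
  · have e1 : 2 * b + 2 = 2 * (b + 1) := by ring
    rw [e1, U_even, cf_even]
    obtain ⟨c, rfl⟩ : ∃ c, b = c + 1 := ⟨b - 1, by omega⟩
    nlinarith [sq_nonneg ((c : ℤ) - 1)]
  · have e1 : 2 * b + 1 + 2 = 2 * (b + 1) + 1 := by ring
    rw [e1, U_odd, cf_odd]
    obtain ⟨c, rfl⟩ : ∃ c, b = c + 1 := ⟨b - 1, by omega⟩
    nlinarith [sq_nonneg ((c : ℤ) - 1)]

theorem LB_num3 (n : ℕ) (hn : 7 ≤ n) : U (n + 2) ≤ 3 * cf 2 n := by
  rcases Nat.even_or_odd' n with ⟨b, rfl | rfl⟩
  · have e1 : 2 * b + 2 = 2 * (b + 1) := by ring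
    rw [e1, U_even, cf_even]
    obtain ⟨c, rfl⟩ : ∃ c, b = c + 4 := ⟨b - 4, by omega⟩
    nlinarith
  · have e1 : 2 * b + 1 + 2 = 2 * (b + 1) + 1 := by ring
    rw [e1, U_odd, cf_odd]
    obtain ⟨c, rfl⟩ : ∃ c, b = c + 3 := ⟨b - 3, by omega⟩
    nlinarith

/-! ### a family with one member in every class -/

section
variable {G ι : Type} [AddCommGroup G]

theorem LB_sub (s : Finset ι) (f : ι → G) (h0 : ∀ i ∈ s, f i ≠ 0) (hc : Cap 2 s f) :
    ∃ v : Finset ι, v ⊆ s ∧ AS v f ∧ s.card ≤ 2 * v.card ∧ gen v f = gen s f := by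
  have hne : (s.powerset.filter fun v => Cap 1 v f).Nonempty := by
    refine ⟨∅, mem_filter.2 ⟨mem_powerset.2 (empty_subset _), fun x => ?_⟩⟩
    rw [filter_empty, card_empty]
    exact Nat.zero_le _
  obtain ⟨v, hv, hmax⟩ := exists_max_image (s.powerset.filter fun v => Cap 1 v f) card hne
  obtain ⟨hv1, hv2⟩ := mem_filter.1 hv
  have hvs : v ⊆ s := mem_powerset.1 hv1
  have hcov : ∀ i ∈ s, ∃ k ∈ v, f i = f k ∨ f i = -f k := by
    intro i hi
    by_contra hcon
    push Not at hcon
    have hiv : i ∉ v := fun h => (hcon i h).1 rfl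
    have h1 : insert i v ∈ s.powerset.filter fun v => Cap 1 v f := by
      refine mem_filter.2 ⟨mem_powerset.2 (insert_subset hi hvs), fun x => ?_⟩
      rw [filter_insert]
      split_ifs with hx
      · have h2 : (v.filter fun k => f k = x ∨ f k = -x) = ∅ := by
          rw [filter_eq_empty_iff]
          intro k hk hkx
          obtain ⟨n1, n2⟩ := hcon k hk
          rcases hx with hx | hx <;> rcases hkx with hkx | hkx
          · exact n1 (hx.trans hkx.symm)
          · apply n2
            rw [hx, hkx, neg_neg]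
          · apply n2
            rw [hx, hkx]
          · exact n1 (hx.trans hkx.symm)
        rw [h2, insert_empty, card_singleton]
      · exact hv2 x
    have h2 := hmax _ h1
    rw [card_insert_of_notMem hiv] at h2
    omega
  refine ⟨v, hvs, ⟨fun i hi => h0 i (hvs hi), hv2⟩, ?_, ?_⟩
  · have h1 : s ⊆ v.biUnion fun k => s.filter fun i => f i = f k ∨ f i = -f k := by
      intro i hi
      obtain ⟨k, hk, hik⟩ := hcov i hi
      exact mem_biUnion.2 ⟨k, hk, mem_filter.2 ⟨hi, hik⟩⟩
    calc s.card ≤ _ := card_le_card h1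
      _ ≤ ∑ k ∈ v, (s.filter fun i => f i = f k ∨ f i = -f k).card := card_biUnion_le
      _ ≤ ∑ _k ∈ v, 2 := sum_le_sum fun k _ => hc (f k)
      _ = 2 * v.card := by rw [sum_const, smul_eq_mul, mul_comm]
  · refine le_antisymm ?_ ?_
    · unfold gen
      rw [AddSubgroup.closure_le]
      rintro _ ⟨k, hk, rfl⟩
      exact P1_mem_gen (hvs (mem_coe.1 hk))
    · conv_lhs => unfold gen
      rw [AddSubgroup.closure_le]
      rintro _ ⟨i, hi, rfl⟩
      obtain ⟨k, hk, hik | hik⟩ := hcov i (mem_coe.1 hi)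
      · rw [SetLike.mem_coe, hik]
        exact P1_mem_gen hk
      · rw [SetLike.mem_coe, hik]
        exact AddSubgroup.neg_mem _ (P1_mem_gen hk)

end

private theorem LB_F {G : Type} [AddCommGroup G] [Fintype G] (P : AddSubgroup G) :
    (Helper58.F P).card = Nat.card P := by
  rw [Nat.card_eq_fintype_card, Fintype.card_subtype]
  rfl

/-- a symmetric set of seven elements in a group of order 16 -/
theorem LB_D {G : Type} [AddCommGroup G] [Finite G] (D : Finset G) (hcard : Nat.card G = 16)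
    (h0 : (0 : G) ∈ D) (hD : 7 ≤ D.card) (hcl : AddSubgroup.closure (D : Set G) = ⊤) : 12 ≤ (D + D).card := by
  have := Fintype.ofFinite G
  have hne : D.Nonempty := ⟨0, h0⟩
  obtain ⟨P, hP⟩ : ∃ P, P = Helper58.stab (D + D) := ⟨_, rfl⟩
  have hk := Helper58.kneser hne hne
  rw [← hP, LB_F] at hk
  have h1 := card_le_card (Helper58.subset_sat D P)
  have h2 : Nat.card P ∣ (Helper58.sat D P).card := by
    have h3 := Helper58.dvd_of_inv (Helper58.sat_inv D P)
    rwa [LB_F] at h3
  have h4 : Nat.card P ∣ 16 := by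
    rw [← hcard]
    exact AddSubgroup.card_addSubgroup_dvd_card P
  have h5 : Nat.card P ∈ Nat.divisors 16 := Nat.mem_divisors.2 ⟨h4, by norm_num⟩
  have h6 : Nat.divisors 16 = {1, 2, 4, 8, 16} := by decide
  rw [h6] at h5
  simp only [mem_insert, mem_singleton] at h5
  have h8 : Nat.card P = 8 → (Helper58.sat D P).card ≠ 8 := by
    intro h8 h9
    have h10 : D ⊆ Helper58.F P := by
      have h11 : Helper58.F P ⊆ Helper58.sat D P := by
        intro x hx
        exact mem_add.2 ⟨0, h0, x, hx, zero_add x⟩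
      have h12 : Helper58.F P = Helper58.sat D P := by
        apply eq_of_subset_of_card_le h11
        rw [h9, LB_F, h8]
      rw [h12]
      exact Helper58.subset_sat D P
    have h13 : P = ⊤ := by
      rw [eq_top_iff, ← hcl, AddSubgroup.closure_le]
      intro x hx
      exact Helper58.mem_F.1 (h10 (mem_coe.1 hx))
    rw [h13, AddSubgroup.card_top, hcard] at h8
    omega
  rcases h5 with h5 | h5 | h5 | h5 | h5
  · rw [h5] at hk
    omega
  · rw [h5] at hk h2
    omega
  · rw [h5] at hk h2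
    omega
  · have h9 := h8 h5
    rw [h5] at hk h2
    omega
  · rw [h5] at hk h2
    omega

theorem LB_16 {G ι : Type} [AddCommGroup G] [Finite G] (s : Finset ι) (f : ι → G) (hcard : Nat.card G = 16)
    (h0 : ∀ i ∈ s, f i ≠ 0) (hc : Cap 2 s f) (hA : Aper (FS s f)) (hg : gen s f = ⊤)
    (hs : s.card = 5) (hX : (FS s f).card = 10) (hlam : ∀ i ∈ s, lam (FS s f) (f i) ≤ 2) : False := by
  obtain ⟨v, hvs, hAS, hvc, hvg⟩ := LB_sub s f h0 hc
  have hAE : AE v f := by
    refine ⟨hAS, fun i hi h => ?_⟩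
    exact (all_Ba1 G ι f).2.2.2.2.1 s i (hvs hi) hA (h0 i (hvs hi)) (eq_neg_of_add_eq_zero_left h)
  obtain ⟨y1, y2, -, y4, y5, -⟩ := thm_SyE G ι v f hAE
  obtain ⟨D, hD⟩ : ∃ D, D = sym v f := ⟨_, rfl⟩
  rw [← hD] at y1 y2 y4 y5
  rw [hvg, hg] at y4
  have hl : ∀ y ∈ D, lam (FS s f) y ≤ 2 := y5 (FS s f) 2 fun i hi => hlam i (hvs hi)
  have h1 := thm_Av0 G (FS s f) D 2 3 y2 hl (by omega)
  have e0 : it D 0 = {0} := rfl
  have e1 : it D 1 = D := by
    show {0} + D = D
    rw [singleton_add]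
    simp
  have e2 : it D 2 = D + D := by
    show it D 1 + D = D + D
    rw [e1]
  have e3 : it D 3 = D + D + D := by
    show it D 2 + D = D + D + D
    rw [e2]
  rw [sum_range_succ, sum_range_succ, sum_range_succ, sum_range_zero, e0, e1, e2, e3, card_singleton, hX] at h1
  have h12 := LB_D D hcard y2 (by omega) y4
  have h3 : (D + D + D).card = 16 := by
    have := Fintype.ofFinite G
    rw [← hcard, Nat.card_eq_fintype_card, ← Finset.card_univ]
    congr 1
    rw [Finset.eq_univ_iff_forall]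
    intro g
    have h4 : ¬ Disjoint (D.image fun d => g - d) (D + D) := by
      intro hdis
      have h5 := card_union_of_disjoint hdis
      rw [card_image_of_injective _ (sub_right_injective)] at h5
      have h6 : ((D.image fun d => g - d) ∪ (D + D)).card ≤ 16 := by
        rw [← hcard, Nat.card_eq_fintype_card]
        exact card_le_univ _
      omega
    rw [not_disjoint_iff] at h4
    obtain ⟨x, hx1, hx2⟩ := h4
    obtain ⟨d, hd, rfl⟩ := mem_image.1 hx1
    exact mem_add.2 ⟨g - d, hx2, d, hd, by abel⟩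
  rw [h3] at h1
  omega

theorem thm_LB (hP : ∀ (K : Type) [AddCommGroup K] [Finite K], Pool.Agent.SNG.PAG K)
    (hM : ∀ (K : Type) [AddCommGroup K] [Finite K], ¬ IsAddCyclic K → M1P K (l0 K - 1)) : St_LB := by
  intro G ι _ _ s f hcyc h0 hc hA hg hX
  have hl2 := Pool.Agent.SNT.A1_l0_two G hcyc
  have hn2 : 2 ≤ s.card := by
    by_contra hcon
    exact hcyc (one_member_cyc s f (by omega) hg)
  have hPG := hP G ι s f h0 hc hA
  rcases hM G hcyc ι s f h0 hc hA hg with h1 | h1
  · have h2 := LB_num1 s.card hn2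
    have h3 := LB_num2 s.card hn2
    have h4 : pn s.card ≤ (FS s f).card ∨ cf 2 s.card + (l0 G - 1) ≤ (FS s f).card := by
      rcases Nat.le_total (pn s.card) (cf 2 s.card + (l0 G - 1)) with h5 | h5
      · rw [min_eq_left h5] at h1
        exact Or.inl h1
      · rw [min_eq_right h5] at h1
        exact Or.inr h1
    rcases h4 with h4 | h4
    · omega
    · omega
  · by_cases h7 : 7 ≤ s.card
    · have h2 := LB_num3 s.card h7
      omega
    · have h8 : s.card = 2 ∨ s.card = 3 ∨ s.card = 4 ∨ s.card = 5 ∨ s.card = 6 := by omega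
      have c3 : cf 2 3 = 5 := by decide
      have c4 : cf 2 4 = 7 := by decide
      have c5 : cf 2 5 = 10 := by decide
      have c6 : cf 2 6 = 13 := by decide
      have j2 : jj 2 = 1 := by decide
      have j3 : jj 3 = 2 := by decide
      have j4 : jj 4 = 2 := by decide
      have j5 : jj 5 = 3 := by decide
      have j6 : jj 6 = 3 := by decide
      have p4 : pn 4 = 9 := by decide
      have u7 : U 7 = 32 := by decide
      rcases h8 with h8 | h8 | h8 | h8 | h8
      · rw [h8, j2] at h1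
        omega
      · rw [h8, j3] at h1
        rw [h8, c3] at hPG
        omega
      · rw [h8, j4] at h1
        rw [h8, c4] at hPG
        omega
      · rw [h8, j5] at h1
        rw [h8, c5] at hPG
        rw [h8]
        show U 7 ≤ _
        rw [u7]
        by_contra hcon
        have hX10 : (FS s f).card = 10 := by omega
        have h16 : Nat.card G = 16 := by omega
        refine LB_16 s f h16 h0 hc hA hg h8 hX10 ?_
        intro i hi
        have hAe : Aper (FS (s.erase i) f) := (all_Ba1 G ι f).2.1 s (s.erase i) (erase_subset _ _) hA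
        have h0e : ∀ k ∈ s.erase i, f k ≠ 0 := fun k hk => h0 k (erase_subset _ _ hk)
        have hce : Cap 2 (s.erase i) f := fun x =>
          (card_le_card (filter_subset_filter _ (erase_subset _ _))).trans (hc x)
        have hec : (s.erase i).card = 4 := by rw [card_erase_of_mem hi, h8]
        have hPe := hP G ι (s.erase i) f h0e hce hAe
        rw [hec, c4] at hPe
        have hge : gen (s.erase i) f = ⊤ := by
          rw [← hg]
          apply (all_Ba1 G ι f).2.2.2.2.2.1 s i hi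
          by_contra hne
          have h3 := (all_Ba1 G ι f).2.2.2.1 s i hi hne
          omega
        have hmono : (FS (s.erase i) f).card ≤ (FS s f).card := card_le_card (FS_mono (erase_subset _ _) f)
        have h5 := (all_Ba1 G ι f).2.2.1 s i hi
        rcases hM G hcyc ι (s.erase i) f h0e hce hAe hge with h6 | h6
        · rw [hec, p4, c4] at h6
          have h9 : 8 ≤ (FS (s.erase i) f).card := by
            refine le_trans ?_ h6
            rw [le_min_iff]
            omega
          omega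
        · rw [hec, j4, h16] at h6
          omega
      · rw [h8, j6] at h1
        rw [h8, c6] at hPG
        omega

theorem cap_res {G H ι : Type} [AddCommGroup G] [AddCommGroup H] (φ : H →+ G) (s : Finset ι)
    (f : ι → G) (f1 : ι → H) (hf : ∀ i ∈ s, φ (f1 i) = f i) (c : ℕ) (hc : Cap c s f) : Cap c s f1 := by
  intro x
  refine le_trans (card_le_card fun i hi => ?_) (hc (φ x))
  obtain ⟨hi1, hi2⟩ := mem_filter.1 hi
  refine mem_filter.2 ⟨hi1, ?_⟩
  rcases hi2 with hi2 | hi2
  · left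
    rw [← hf i hi1, hi2]
  · right
    rw [← hf i hi1, hi2, map_neg]

/-- restriction to a subgroup -/
theorem LB_res {G ι : Type} [AddCommGroup G] [Finite G] (s : Finset ι) (f : ι → G) (C : AddSubgroup G)
    (h0 : ∀ i ∈ s, f i ≠ 0) (hc : Cap 2 s f) (hA : Aper (FS s f)) (hg : gen s f = C) :
    ∃ (H : Type) (_ : AddCommGroup H) (_ : Finite H) (f1 : ι → H), Nat.card H = Nat.card C ∧ l0 H = l0 C ∧
      (IsAddCyclic H → IsAddCyclic C) ∧ (∀ i ∈ s, f1 i ≠ 0) ∧ Cap 2 s f1 ∧ Aper (FS s f1) ∧ gen s f1 = ⊤ ∧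
      (FS s f1).card = (FS s f).card := by
  obtain ⟨f1, h1, h2, h3⟩ := res_aux C.subtype (AddSubgroup.subtype_injective C) s f
    (by rw [AddSubgroup.range_subtype]; exact hg)
  exact ⟨C, inferInstance, inferInstance, f1, rfl, rfl, id, ne_res C.subtype s f f1 h1 h0,
    cap_res C.subtype s f f1 h1 2 hc, aper_res C.subtype (AddSubgroup.subtype_injective C) s f f1 h1 hA, h3, h2⟩

theorem thm_LBs (hLB : St_LB) : St_LBs := by
  intro G ι _ _ s f C hcyc h0 hc hA hg hX
  obtain ⟨H, _, _, f1, k1, k2, k3, k0, kc, kA, kg, kX⟩ := LB_res s f C h0 hc hA hg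
  rw [← kX, ← k1] at hX
  rw [← kX]
  exact hLB H ι s f1 (fun h => hcyc (k3 h)) k0 kc kA kg hX

theorem thm_Yb (hP : ∀ (K : Type) [AddCommGroup K] [Finite K], Pool.Agent.SNG.PAG K)
    (hM : ∀ (K : Type) [AddCommGroup K] [Finite K], ¬ IsAddCyclic K → M1P K (l0 K - 1)) : St_Yb := by
  intro G ι _ _ s f C hcyc h0 hc hA hg hX
  obtain ⟨H, _, _, f1, k1, k2, k3, k0, kc, kA, kg, kX⟩ := LB_res s f C h0 hc hA hg
  rw [← kX, ← k1] at hX
  rw [← kX, ← k2]
  have hcyc' : ¬ IsAddCyclic H := fun h => hcyc (k3 h)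
  have hl2 := Pool.Agent.SNT.A1_l0_two H hcyc'
  have hPG := hP H ι s f1 k0 kc kA
  have h2 : min (pn s.card) (cf 2 s.card + (l0 H - 1)) ≤ (FS s f1).card := by
    rcases hM H hcyc' ι s f1 k0 kc kA kg with h1 | h1
    · exact h1
    · exfalso
      rw [thm_Nm1.2.2.1] at hPG
      unfold jj at h1
      have h3 : (s.card + 1) / 2 * ((s.card + 1) / 2 - 1) ≤ (s.card + 1) ^ 2 / 4 := by
        rw [Nat.le_div_iff_mul_le (by norm_num)]
        have h4 : (s.card + 1) / 2 * 2 ≤ s.card + 1 := Nat.div_mul_le_self _ _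
        have h5 : (s.card + 1) / 2 - 1 ≤ (s.card + 1) / 2 := Nat.sub_le _ _
        calc (s.card + 1) / 2 * ((s.card + 1) / 2 - 1) * 4
            ≤ (s.card + 1) / 2 * ((s.card + 1) / 2) * 4 :=
              Nat.mul_le_mul_right _ (Nat.mul_le_mul_left _ h5)
          _ = ((s.card + 1) / 2 * 2) ^ 2 := by ring
          _ ≤ _ := Nat.pow_le_pow_left h4 2
      omega
  refine ⟨?_, ?_⟩
  · refine le_trans (le_of_eq ?_) h2
    congr 1
    omega
  · refine le_trans ?_ h2
    rw [le_min_iff]
    refine ⟨min_le_left _ _, (min_le_right _ _).trans ?_⟩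
    omega

end Pool.Agent.SBN
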